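import Pool.Agent.H379R3.RC.U
import Pool.Agent.H379R3.RC.L4

/-!
# The sharp Cwikel-Lieb-Rozenblum constant for radial potentials in dimension three

The statement is the frozen statement S10823 with the additional assumption that the potential
is radial.

The proof reduces to the sharp one-dimensional Lieb-Thirring inequality (starting files, helper490)
by spherical harmonics; the modules under `Pool/Agent/H379R3/RC` were written by the helpers 51, 59,
116, 140, 189, 268, 329, 379, 406, 457, 558, 562, 605, 682, 726, 850, 898, 956 and 959.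
-/

set_option autoImplicit false

open Real MeasureTheory

namespace Pool.Agent.Results.MP_8d28ad_mp.RadialPotentials

open Pool.Agent.H379R3.RC

theorem const_eq : (3 * π) ^ (-(3 / 2 : ℝ)) * Real.Gamma 3 / Real.Gamma (3 / 2) =
    4 / (3 * √3 * π ^ 2) := by
  have h3 : Real.Gamma 3 = 2 := by
    rw [show (3 : ℝ) = ((2 : ℕ) : ℝ) + 1 by norm_num, Real.Gamma_nat_eq_factorial]
    norm_num [Nat.factorial]
  have h32 : Real.Gamma (3 / 2) = √π / 2 := by
    have := Real.Gamma_add_one (s := 1 / 2) (by norm_num)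
    rw [Real.Gamma_one_half_eq] at this
    norm_num at this
    rw [this]
    ring
  have hpi : (0 : ℝ) < π := Real.pi_pos
  have hp : (3 * π) ^ (-(3 / 2 : ℝ)) = (3 * √3 * (π * √π))⁻¹ := by
    rw [Real.rpow_neg (by positivity)]
    congr 1
    rw [show (3 / 2 : ℝ) = 1 + 1 / 2 by norm_num, Real.rpow_add (by positivity), Real.rpow_one,
      ← Real.sqrt_eq_rpow, Real.sqrt_mul (by norm_num)]
    ring
  have hs : √π * √π = π := Real.mul_self_sqrt hpi.le
  have hs0 : √π ≠ 0 := (Real.sqrt_pos.2 hpi).ne'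
  have h30 : √(3 : ℝ) ≠ 0 := (Real.sqrt_pos.2 (by norm_num)).ne'
  rw [hp, h3, h32]
  field_simp
  linear_combination (-4 : ℝ) * hs

theorem cc_sum (n : ℕ) (u : Fin n → EuclideanSpace ℝ (Fin 3) → ℝ)
    (hu : ∀ i, ContDiff ℝ (⊤ : ℕ∞) (u i) ∧ HasCompactSupport (u i)) (c : Fin n → ℝ) :
    Cc (fun y => ∑ i, c i * u i y) := by
  constructor
  · exact ContDiff.sum fun i _ => contDiff_const.mul (hu i).1
  · have hK : IsCompact (⋃ i, tsupport (u i)) := isCompact_iUnion fun i => (hu i).2
    refine HasCompactSupport.intro hK fun x hx => ?_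
    refine Finset.sum_eq_zero fun i _ => ?_
    have : x ∉ tsupport (u i) := fun h => hx (Set.mem_iUnion.2 ⟨i, h⟩)
    rw [image_eq_zero_of_notMem_tsupport this, mul_zero]

theorem int_form (W : EuclideanSpace ℝ (Fin 3) → ℝ) (hWm : Measurable W) (hW0 : ∀ x, 0 ≤ W x)
    (hWr : Rad W) (hWi : Integrable (fun x => W x ^ (3 / 2 : ℝ)))
    (v : EuclideanSpace ℝ (Fin 3) → ℝ) (hv : Cc v) :
    ∫ x, (‖fderiv ℝ v x‖ ^ 2 - W x * v x ^ 2) =
      (∫ x, ‖fderiv ℝ v x‖ ^ 2) - ∫ x, W x * v x ^ 2 := by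
  have h1 : Integrable (fun x => ‖fderiv ℝ v x‖ ^ 2) := by
    refine Continuous.integrable_of_hasCompactSupport
      ((hv.1.continuous_fderiv (by simp)).norm.pow 2) ?_
    refine (hv.2.fderiv (𝕜 := ℝ)).mono fun x hx => ?_
    simp only [Function.mem_support] at hx ⊢
    intro h
    apply hx
    rw [h]
    simp
  have h2 : Integrable (fun x => W x * v x ^ 2) := by
    refine (R4_loc W hWm hW0 hWr hWi).1 (fun x => v x ^ 2) (hv.1.continuous.pow 2) ?_
    refine hv.2.mono fun x hx => ?_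
    simp only [Function.mem_support] at hx ⊢
    intro h
    apply hx
    rw [h]
    ring
  exact integral_sub h1 h2

theorem upper (W : EuclideanSpace ℝ (Fin 3) → ℝ) (hWm : Measurable W) (hW0 : ∀ x, 0 ≤ W x)
    (hWr : Rad W) (hWi : Integrable (fun x => W x ^ (3 / 2 : ℝ))) (n : ℕ)
    (u : Fin n → EuclideanSpace ℝ (Fin 3) → ℝ)
    (hu : ∀ i, ContDiff ℝ (⊤ : ℕ∞) (u i) ∧ HasCompactSupport (u i))
    (hn : ∀ c : Fin n → ℝ, c ≠ 0 →
      ∫ x, (‖fderiv ℝ (fun y => ∑ i, c i * u i y) x‖ ^ 2 - W x * (∑ i, c i * u i x) ^ 2) < 0) :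
    (n : ℝ) ≤ 4 / (3 * √3 * π ^ 2) * ∫ x, W x ^ (3 / 2 : ℝ) := by
  have hform : ∀ c : Fin n → ℝ, (fun y => ∑ i, c i * u i y) = ∑ i, c i • u i := by
    intro c
    funext y
    simp [Finset.sum_apply]
  have hli : LinearIndependent ℝ u := by
    rw [Fintype.linearIndependent_iff]
    intro c hc
    by_contra hcon
    push Not at hcon
    obtain ⟨i, hi⟩ := hcon
    have hc0 : c ≠ 0 := fun h => hi (by rw [h]; rfl)
    have h1 := hn c hc0
    have h2 : ∀ x, ∑ i, c i * u i x = 0 := fun x => by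
      have := congrFun (hform c) x
      rw [hc] at this
      exact this
    simp only [h2] at h1
    simp at h1
  have hrank : Module.finrank ℝ (Submodule.span ℝ (Set.range u)) = n := by
    rw [finrank_span_eq_card hli, Fintype.card_fin]
  have hmem : ∀ v ∈ Submodule.span ℝ (Set.range u), ∃ c : Fin n → ℝ,
      v = fun y => ∑ i, c i * u i y := by
    intro v hv
    obtain ⟨c, hc⟩ := (Submodule.mem_span_range_iff_exists_fun ℝ).1 hv
    exact ⟨c, by rw [hform c, hc]⟩
  have hU := U_bound W hWm hW0 hWr hWi (Submodule.span ℝ (Set.range u))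
    (FiniteDimensional.span_of_finite ℝ (Set.finite_range u)) ?_ ?_
  · rwa [hrank] at hU
  · intro v hv
    obtain ⟨c, rfl⟩ := hmem v hv
    exact cc_sum n u hu c
  · intro v hv hv0
    obtain ⟨c, rfl⟩ := hmem v hv
    have hc0 : c ≠ 0 := by
      rintro rfl
      apply hv0
      funext y
      simp
    have h1 := hn c hc0
    rw [int_form W hWm hW0 hWr hWi _ (cc_sum n u hu c)] at h1
    linarith

/-- For radial potentials in dimension three, the best constant `C` with (number of negative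
eigenvalues of `-Δ - W`) `≤ C ∫ W^(3/2)`, the eigenvalues being counted variationally via smooth
test functions, equals `(3π)^(-3/2) Γ(3) / Γ(3/2)`. -/
theorem result :
    IsLeast
      {C : ℝ | ∀ W : EuclideanSpace ℝ (Fin 3) → ℝ, Measurable W → (∀ x, 0 ≤ W x) →
        (∀ x y, ‖x‖ = ‖y‖ → W x = W y) →
        Integrable (fun x => W x ^ (3 / 2 : ℝ)) →
        ∀ (n : ℕ) (u : Fin n → EuclideanSpace ℝ (Fin 3) → ℝ),
          (∀ i, ContDiff ℝ (⊤ : ℕ∞) (u i) ∧ HasCompactSupport (u i)) →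
          (∀ c : Fin n → ℝ, c ≠ 0 →
            ∫ x, (‖fderiv ℝ (fun y => ∑ i, c i * u i y) x‖ ^ 2
                  - W x * (∑ i, c i * u i x) ^ 2) < 0) →
          (n : ℝ) ≤ C * ∫ x, W x ^ (3 / 2 : ℝ)}
      ((3 * π) ^ (-(3 / 2 : ℝ)) * Real.Gamma 3 / Real.Gamma (3 / 2)) := by
  rw [const_eq]
  constructor
  · intro W hWm hW0 hWr hWi n u hu hn
    exact upper W hWm hW0 hWr hWi n u hu hn
  · intro C hC
    by_contra hlt
    rw [not_le] at hlt
    obtain ⟨W, u, hWm, hW0, hWr, hWi, hpos, hu, hu0, hneg, hc⟩ := L4_sharp C hlt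
    have h1 := hC W hWm hW0 hWr hWi 1 (fun _ => u) (fun _ => hu) ?_
    · rw [lt_div_iff₀ hpos] at hc
      push_cast at h1
      linarith
    · intro c hc0
      have hc00 : c 0 ≠ 0 := fun h => hc0 (funext fun i => by
        rw [Subsingleton.elim i 0, h]
        rfl)
      rw [int_form W hWm hW0 hWr hWi _ (cc_sum 1 (fun _ => u) (fun _ => hu) c)]
      have h1 : ∀ x, ∑ i : Fin 1, c i * u x = c 0 * u x := fun x => by simp
      have h2 : ∀ x, fderiv ℝ (fun y => c 0 * u y) x = c 0 • fderiv ℝ u x := fun x =>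
        fderiv_const_mul (hu.1.differentiable (by simp) x) (c 0)
      simp only [h1, h2, norm_smul, mul_pow, Real.norm_eq_abs, sq_abs]
      have h3 : ∀ x, W x * (c 0 ^ 2 * u x ^ 2) = c 0 ^ 2 * (W x * u x ^ 2) := fun x => by ring
      simp only [h3, integral_const_mul]
      have h4 : 0 < c 0 ^ 2 := by positivity
      nlinarith [mul_lt_mul_of_pos_left hneg h4]

end Pool.Agent.Results.MP_8d28ad_mp.RadialPotentials
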